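import Pool.Agent.Run7.h414.DP.Fam
import Pool.Agent.Run7.h414.DP.TL
import Pool.Agent.Results.MP_4011c3_nt.ExchangeableDigitsAllSlopes

/-!
# Primes `p < n` with `q = ⌊(n - p) / m⌋` prime and `q ^ 2 - 2` almost prime, for random integers with determinantal digits

The digits of the random integer `v` are given by a determinantal random set `S` of positions (a determinantal point process
with an arbitrary Hermitian kernel): the digit number `i` is `y i` if `i ∈ S` and `x i ≠ y i` otherwise. Examples (their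
existence is not used and not formalised): the edges of a uniform spanning tree of a graph with `k` edges; stationary
determinantal processes with any symbol which is not almost everywhere `0` or almost everywhere `1` (for example the discrete
sine process with any density); independent digits; and all the events for such processes whose probability is at least
`1 / k ^ t`, for example a prescribed number of elements of `S`.

Definitions used (in `Pool.Agent.Run7.h414.DP.Law` and `Pool.Agent.Run7.h414.DP.Fam`): `DetLaw`, `GoodPos`, `DetDigits`.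

Method: the characteristic function is `det (1 + D A)`; the inequality `|det N|² ≤ exp (tr N* N - k)` for
`N = 1 + B D B*`, `A = B* B`, bounds it by `exp (- E)` with an energy `E` which is at least a constant times the number of
the good positions near the places where the frequency is far from the rational numbers with small denominators. So all the
multiples of the random integer have a thin large spectrum. The passage from this to the
representations is from the starting files (`Pool.Agent.N625.PT.t_gen`, `Pool.Agent.N625.PT.det_P`).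

The conditions `Admissible`, `Rep` are defined in the starting file
`Pool.Agent.Results.MP_4011c3_nt.ExchangeableDigitsAllSlopes`; `∑ v ∈ range (b ^ k), (if P v then 0 else p v)` is the
`p`-weight of the integers `v < b ^ k` without the property `P`.
-/

set_option autoImplicit false

namespace Pool.Agent.Results.MP_4011c3_nt.DeterminantalDigitsAllSlopes
open Finset Polynomial Pool.Agent.H373R2.T7 Pool.Agent.H373R2.T7.TB Pool.Agent.H373R2.T7.PB
open Pool.Agent.Run7.h414.DP (DC DC_nonneg DetDigits fam_dc dom_le dc_tcls)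
open Pool.Agent.Results.MP_4011c3_nt.ExchangeableDigitsAllSlopes (Admissible Rep PN det_N rep_of_pos loc)

open Classical in
/-- the theorem for the distributions of the integers with determinantal digits (after the starting file) -/
theorem main : ∃ K : ℕ, 1 ≤ K ∧ ∀ (b L : ℕ), 2 ≤ b → ∀ η : ℝ, 0 < η → ∀ κ : ℤ, κ ≠ 0 →
    ∀ B J W U : ℕ, ∃ k₀ : ℕ, ∀ k : ℕ, k₀ ≤ k → ∀ p : ℕ → ℝ, DC b L η k p → ∀ c : ℤ, |c| ≤ B * (b : ℤ) ^ k →
      ∑ v ∈ range (b ^ k), (if ∀ q : ℤ, |q - (c + κ * v)| ≤ (k : ℤ) ^ W → ∀ h : ℕ, 1 ≤ h → h ≤ k ^ J →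
        ∀ n : ℕ, |(n : ℤ) - h * q| ≤ (k : ℤ) ^ W → ∀ m : ℕ, 1 ≤ m → m ≤ k ^ J → Admissible m n → Rep K m n
          then 0 else p v) ≤ 1 / (k : ℝ) ^ U := by
  obtain ⟨K, hK, hdet⟩ := det_N
  refine ⟨8 * K + 1, by omega, fun b L hb η hη0 κ hκ B J W U => ?_⟩
  have hC := dc_tcls b L hb η hη0 κ hκ
  obtain ⟨k₀, hmain⟩ := Pool.Agent.N625.PT.t_gen hC B J (W + J + 1) (U + J + 0 + 1) _ _ (hdet (J + 1) (8 * K))
  obtain ⟨z0, hz0⟩ : ∃ z0 : ℕ, z0 = 2 ^ (J + 1) := ⟨_, rfl⟩
  refine ⟨k₀ + z0 + 2 * K + 4, fun k hk p hp c hc => ?_⟩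
  have hk2 : 2 ^ (J + 1) ≤ k := by rw [← hz0]; omega
  have hk4 : 4 ≤ k := by omega
  obtain ⟨y, hy⟩ : ∃ y, y = b ^ (k / (2 * K)) := ⟨_, rfl⟩
  have hkK : 1 ≤ k / (2 * K) := Nat.div_pos (by omega) (by omega)
  have hy2 : 2 ≤ y := by
    rw [hy]
    calc 2 ≤ b := hb
      _ = b ^ 1 := (pow_one b).symm
      _ ≤ b ^ (k / (2 * K)) := Nat.pow_le_pow_right (by omega) hkK
  refine Pool.Agent.N625.PT.union J 0 U k (by omega) (b ^ k) p (DC_nonneg hp)
    (fun m _ v => ¬ ∀ q : ℤ, |q - (c + κ * v)| ≤ (k : ℤ) ^ W → ∀ h : ℕ, 1 ≤ h → h ≤ k ^ J →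
        ∀ n : ℕ, |(n : ℤ) - h * q| ≤ (k : ℤ) ^ W → Admissible m n → Rep (8 * K + 1) m n) _ ?_ ?_
  · intro v hv
    push Not at hv
    obtain ⟨q, hq, h, hh1, hh2, n, hn, m, hm1, hm2, hadm, hrep⟩ := hv
    refine ⟨m, hm1, hm2, 0, by simp, ?_⟩
    push Not
    exact ⟨q, hq, h, hh1, hh2, n, hn, hadm, hrep⟩
  · intro m hm1 hm2 _ _
    have hAd : ∀ K' : ℕ, k ≤ K' → K' ≤ 2 * k → Pool.Agent.N625.PT.AdP (J + 1) K (8 * K) (b ^ K') (m, y) := by
      intro K' hK1 hK2
      refine ⟨hm1, ?_, ?_, ?_⟩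
      · simp only
        have hbr : (2 : ℝ) ≤ b := by exact_mod_cast hb
        have hl : (k : ℝ) / 2 ≤ Real.log ((b ^ K' : ℕ) : ℝ) := by
          push_cast
          rw [Real.log_pow]
          have g1 : (1 : ℝ) / 2 ≤ Real.log b := by
            have := Real.log_two_gt_d9
            have := Real.log_le_log (by norm_num) hbr
            linarith
          have g2 : (k : ℝ) ≤ K' := by exact_mod_cast hK1
          have g3 : (0 : ℝ) ≤ k := Nat.cast_nonneg _
          nlinarith
        have hk0 : (0 : ℝ) < k := by exact_mod_cast (by omega : 0 < k)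
        calc (m : ℝ) ≤ (k : ℝ) ^ J := by exact_mod_cast hm2
          _ ≤ ((k : ℝ) / 2) ^ (J + 1) := by
              rw [div_pow, le_div_iff₀ (by positivity), pow_succ (k : ℝ)]
              apply mul_le_mul_of_nonneg_left _ (by positivity)
              exact_mod_cast hk2
          _ ≤ Real.log ((b ^ K' : ℕ) : ℝ) ^ (J + 1) := pow_le_pow_left₀ (by positivity) hl _
      · simp only
        rw [hy, ← pow_mul]
        apply Nat.pow_le_pow_right (by omega)
        exact (Nat.div_mul_le_self k (2 * K)).trans hK1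
      · simp only
        rw [hy, ← pow_mul]
        apply Nat.pow_le_pow_right (by omega)
        have h5 := Nat.lt_div_mul_add (a := k) (b := 2 * K) (by omega)
        have h6 : k / (2 * K) * (2 * K) + 2 * K ≤ 2 * (k / (2 * K) * (2 * K)) := by
          have : 2 * K ≤ k / (2 * K) * (2 * K) := Nat.le_mul_of_pos_left _ hkK
          omega
        calc K' ≤ 2 * k := hK2
          _ ≤ 2 * (2 * (k / (2 * K) * (2 * K))) := by omega
          _ = k / (2 * K) * (8 * K) := by ring
    refine le_trans (le_of_eq ?_) (hmain k (by omega) p hp c hc (m, y) hAd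
      (fun v => ∀ q : ℤ, |q - (c + κ * v)| ≤ (k : ℤ) ^ W → ∀ h : ℕ, 1 ≤ h → h ≤ k ^ J →
        ∀ n : ℕ, |(n : ℤ) - h * q| ≤ (k : ℤ) ^ W → Admissible m n → Rep (8 * K + 1) m n) ?_)
    · apply sum_congr rfl
      intro v _
      by_cases hv : ∀ q : ℤ, |q - (c + κ * v)| ≤ (k : ℤ) ^ W → ∀ h : ℕ, 1 ≤ h → h ≤ k ^ J →
        ∀ n : ℕ, |(n : ℤ) - h * q| ≤ (k : ℤ) ^ W → Admissible m n → Rep (8 * K + 1) m n
      · rw [if_neg (not_not.2 hv), if_pos hv]
      · rw [if_pos hv, if_neg hv]
    · intro v hv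
      push Not at hv
      obtain ⟨q, hq, h, hh1, hh2, n, hn, hadm, hrep⟩ := hv
      obtain ⟨r, hr, hcop, hodd⟩ := loc m n hm1 hadm
      have hn2 := hadm.1
      have hkz : (1 : ℤ) ≤ (k : ℤ) := by exact_mod_cast (by omega : 1 ≤ k)
      have hkW : (k : ℤ) ^ W ≤ (k : ℤ) ^ (W + J + 1) := pow_le_pow_right₀ hkz (by omega)
      refine ⟨h, hh1, hh2, q - (c + κ * v), hq.trans hkW, (n : ℤ) - r - h * q, ?_, ?_, ?_⟩
      · have e1 : (n : ℤ) - r - h * q = ((n : ℤ) - h * q) - r := by ring
        have e2 : |((n : ℤ) - h * q) - r| ≤ |(n : ℤ) - h * q| + r := by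
          refine (abs_sub _ _).trans (le_of_eq ?_)
          rw [Nat.abs_cast]
        have e3 : (r : ℤ) ≤ (k : ℤ) ^ J := by
          have : r ≤ k ^ J := by omega
          exact_mod_cast this
        rw [e1]
        refine e2.trans ?_
        have e4 : (k : ℤ) ^ W ≤ (k : ℤ) ^ (W + J) := pow_le_pow_right₀ hkz (by omega)
        have e5 : (k : ℤ) ^ J ≤ (k : ℤ) ^ (W + J) := pow_le_pow_right₀ hkz (by omega)
        have e6 : (4 : ℤ) ≤ k := by exact_mod_cast hk4
        have e7 : 0 < (k : ℤ) ^ (W + J) := by positivity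
        rw [pow_succ]
        nlinarith
      · have e1 : (h : ℤ) * (c + (q - (c + κ * v)) + κ * v) + ((n : ℤ) - r - h * q) = n - r := by ring
        rw [e1]
        have : (r : ℤ) < n := by exact_mod_cast (by omega : r < n)
        linarith
      · have e1 : (h : ℤ) * (c + (q - (c + κ * v)) + κ * v) + ((n : ℤ) - r - h * q) = ((n - r : ℕ) : ℤ) := by
          rw [Nat.cast_sub (by omega)]
          ring
        rw [e1, Int.toNat_natCast]
        intro hP
        apply hrep
        obtain ⟨hle, hpos⟩ := hP hcop hodd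
        simp only at hle hpos
        refine rep_of_pos (8 * K + 1) m n r y (n - r) (by omega) hm1 hr (by omega) ?_ hpos
        intro ℓ hℓ
        have h6 : n ≤ 2 * (n - r) := by omega
        have h7 : ℓ ^ (8 * K + 1) ≤ y ^ (8 * K + 1) := by
          calc ℓ ^ (8 * K + 1) ≤ n := hℓ
            _ ≤ 2 * (n - r) := h6
            _ ≤ y * y ^ (8 * K) := Nat.mul_le_mul hy2 hle
            _ = y ^ (8 * K + 1) := by rw [pow_succ]; ring
        exact (Nat.pow_le_pow_iff_left (by omega)).1 h7

open Classical in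
/-- There is a constant `K` with the following property. Let `p` be dominated, up to the factor `k ^ t`, by the distribution
of an integer with `k` determinantal digits (`DetDigits b L η t k p`). The `p`-weight of the integers `v < b ^ k` without the
following property is at most `1 / k ^ U`: for ALL the integers `n` with `|n - h q| ≤ k ^ W` for some `q` with
`|q - (c + κ v)| ≤ k ^ W` and some `1 ≤ h ≤ k ^ J`, and for ALL `1 ≤ m ≤ k ^ J`: if the pair `(m, n)` is admissible, there is
a prime `p < n` such that `q = ⌊(n - p) / m⌋` is prime, `q ^ 2 - 2` has no prime factor `ℓ` with `ℓ ^ K ≤ n`, and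
`q ^ 2 - 2` has fewer than `2 K` prime factors. -/
theorem result : ∃ K : ℕ, 1 ≤ K ∧ ∀ (b L : ℕ), 2 ≤ b → ∀ η : ℝ, 0 < η → ∀ (t : ℕ) (κ : ℤ), κ ≠ 0 →
    ∀ B J W U : ℕ, ∃ k₀ : ℕ, ∀ k : ℕ, k₀ ≤ k → ∀ p : ℕ → ℝ, DetDigits b L η t k p → ∀ c : ℤ, |c| ≤ B * (b : ℤ) ^ k →
      ∑ v ∈ range (b ^ k), (if ∀ q : ℤ, |q - (c + κ * v)| ≤ (k : ℤ) ^ W → ∀ h : ℕ, 1 ≤ h → h ≤ k ^ J →
        ∀ n : ℕ, |(n : ℤ) - h * q| ≤ (k : ℤ) ^ W → ∀ m : ℕ, 1 ≤ m → m ≤ k ^ J → Admissible m n → Rep K m n
          then 0 else p v) ≤ 1 / (k : ℝ) ^ U := by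
  obtain ⟨K, hK, h1⟩ := main
  refine ⟨K, hK, fun b L hb η hη t κ hκ B J W U => ?_⟩
  obtain ⟨k₀, h2⟩ := h1 b L hb η hη κ hκ B J W (U + t)
  refine ⟨k₀ + 1, fun k hk p hp c hc => ?_⟩
  obtain ⟨μ, hμ, hpμ⟩ := fam_dc hp
  exact dom_le (by omega) hpμ _ _ (fun v h => h) (h2 k (by omega) μ hμ c hc)

end Pool.Agent.Results.MP_4011c3_nt.DeterminantalDigitsAllSlopes
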