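import Pool.Agent.N625.PT.S
import Pool.Agent.N625.PT.H
import Pool.Agent.Run7.h927.CG.Mono

/-!
# Primes `p < n` with `q = ⌊(n - p) / m⌋` prime and `q ^ 2 - 2` almost prime, near the multiples of random integers

All the admissible pairs `(m, n)` with `n` near some multiple of an integer near a random integer are considered at once.
The random integer `v` has `k` digits in base `b`, and its digits (1) are the labels of a walk between two vertices of a
graph, which may be infinite, for example of the Cayley graph of a group (then these are the integers whose digits spell a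
given element of the group; such a set can contain as few as `N ^ ε` integers below `N = b ^ k`), or (2) form a correctly
nested word over an alphabet of opening, closing and neutral digits, or (3) form a Markov random field on an arbitrary
graph of positions of bounded degree.

Method: the exponential sums of these three kinds of distributions are small at the frequencies with many good positions
(starting files `Pool.Agent.N625.GW`, `Pool.Agent.N625.DY` of helper625, `Pool.Agent.N213.GF` of helper213; put into the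
form needed here in `Pool.Agent.Run7.h927.CG`), hence all the multiples of the random integers have a thin large
spectrum; the passage from the exponential sums to the pairs `p`, `q` is from the starting files
(`Pool.Agent.N625.PT.t_gen`, `Pool.Agent.N625.PT.det_P`, and the starting result
`MP_4011c3_nt.ExchangeableDigitsAllSlopes`, whose definitions and lemmas on admissible pairs are copied here).

Examples of random fields, proved in `Pool.Agent.N213.GF.E` and `Pool.Agent.N213.GF.F`: the uniform distribution on the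
solutions of local constraints with flexible digits on a graph of positions with degrees at most `Δ`, with
`η = 1 / b ^ (Δ + 1)` (`unif_field`); in particular the integers whose nonzero digits form an independent set of the graph
(`indep_local`), and, for `b ≥ Δ + 2`, the integers whose digits are a proper colouring of the graph (`colour_local`).

`∑ v ∈ range (b ^ k), (if P v then 0 else p v)` is the probability that the random integer `v < b ^ k` with the
distribution `p` does not have the property `P`.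
-/

set_option autoImplicit false

namespace Pool.Agent.Results.MP_4011c3_nt.DigitLawsAllSlopes

section laws
open Finset

/-- The digits `a < b` act on the set `X` of the vertices: an edge with the label `a` leads from `x` to `y` if
`δ x a = some y` (at most one edge with the label `a` starts at `x`). The number of the edges from `x` to `y` equals the
number of the edges from `y` to `x`, and at least two edges start at every vertex. The graph may be infinite. -/
structure Graph {X : Type} (b : ℕ) (δ : X → ℕ → Option X) : Prop where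
  symm : ∀ x y : X, {a : ℕ | a < b ∧ δ x a = some y}.ncard = {a : ℕ | a < b ∧ δ y a = some x}.ncard
  two : ∀ x : X, ∃ a a' : ℕ, a < a' ∧ a' < b ∧ (δ x a).isSome ∧ (δ x a').isSome

open Classical in
/-- The integers `v < b ^ k` whose `k` digits in base `b`, from the most significant to the least significant one (the
digit number `i`, `0 ≤ i < k`, from the left is `v / b ^ (k - 1 - i) % b`), are the labels of a walk from `x` to `y`. -/
noncomputable def walks {X : Type} (b : ℕ) (δ : X → ℕ → Option X) (k : ℕ) (x y : X) : Finset ℕ :=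
  (range (b ^ k)).filter fun v =>
    ((List.range k).map fun i => v / b ^ (k - 1 - i) % b).foldl (fun s a => s.bind fun z => δ z a) (some x) = some y

/-- `P` is a set of pairs of an opening digit and a closing digit which match each other, `E` is a set of neutral
digits; the digits are smaller than `b`, no digit plays two of the three roles, and there is at least one pair.
(An opening digit can match several closing digits, and conversely.) -/
structure Alphabet (b : ℕ) (P : Finset (ℕ × ℕ)) (E : Finset ℕ) : Prop where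
  lt : ∀ p ∈ P, p.1 < b ∧ p.2 < b
  ne : ∀ p ∈ P, ∀ p' ∈ P, p.1 ≠ p'.2
  neutral : ∀ a ∈ E, a < b ∧ ∀ p ∈ P, a ≠ p.1 ∧ a ≠ p.2
  nonempty : P.Nonempty

/-- The correctly nested words: the empty word; a neutral digit followed by a correctly nested word; and `o u c w`,
where `u` and `w` are correctly nested words and the opening digit `o` matches the closing digit `c`. -/
inductive Balanced (P : Finset (ℕ × ℕ)) (E : Finset ℕ) : List ℕ → Prop
  | nil : Balanced P E []
  | neutral (a : ℕ) (w : List ℕ) : a ∈ E → Balanced P E w → Balanced P E (a :: w)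
  | pair (o c : ℕ) (u w : List ℕ) : (o, c) ∈ P → Balanced P E u → Balanced P E w → Balanced P E (o :: (u ++ c :: w))

open Classical in
/-- The integers `v < b ^ k` whose `k` digits in base `b`, from the most significant to the least significant one (the
digit number `i`, `0 ≤ i < k`, from the left is `v / b ^ (k - 1 - i) % b`), form a correctly nested word. -/
noncomputable def brackets (b : ℕ) (P : Finset (ℕ × ℕ)) (E : Finset ℕ) (k : ℕ) : Finset ℕ :=
  (range (b ^ k)).filter fun v => Balanced P E ((List.range k).map fun i => v / b ^ (k - 1 - i) % b)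

/-- The digit of `v` at the position `i` in base `b` (the position `0` is the least significant one). -/
def dig (b v i : ℕ) : ℕ := v / b ^ i % b

/-- The integer which has the digits of `v` at the positions in `S` and the digits of `w` at the other positions below `k`. -/
def splice (b k : ℕ) (S : Finset ℕ) (v w : ℕ) : ℕ := ∑ i ∈ range k, (if i ∈ S then dig b v i else dig b w i) * b ^ i

/-- `v` and `w` have the same digits outside the set `S` of positions. -/
def Off (b : ℕ) (S : Finset ℕ) (v w : ℕ) : Prop := ∀ i, i ∉ S → dig b v i = dig b w i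

open Classical in
/-- The closed neighbourhood of the position `i` in the graph `A` on the positions `0, …, k - 1`. -/
noncomputable def nb (k : ℕ) (A : ℕ → ℕ → Prop) (i : ℕ) : Finset ℕ := (range k).filter fun j => j = i ∨ A i j

open Classical in
/-- The total weight of the integers below `b ^ k` which have the same digits as `v` outside `S`. -/
noncomputable def mass (b k : ℕ) (p : ℕ → ℝ) (S : Finset ℕ) (v : ℕ) : ℝ :=
  ∑ w ∈ (range (b ^ k)).filter (fun w => Off b S w v), p w

/-- The digits of a random integer `v < b ^ k` (with the probabilities `p v`) form a Markov random field on a graph `A` of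
positions with degrees at most `Δ` (the Markov property: for every set `S` of positions and all `v`, `w` which have the same
digits at the positions outside `S` adjacent to `S`, the product `p v * p w` does not change if `v` and `w` exchange their
digits in `S`), and each digit is flexible: for every `v` with `p v ≠ 0` and every position `i`, there are `x` and `y` which
have the same digits as `v` outside the closed neighbourhood of `i`, which differ from each other exactly at the position
`i`, and whose conditional probabilities, given the digits outside this neighbourhood, are at least `η`. -/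
structure Field (b k Δ : ℕ) (η : ℝ) (A : ℕ → ℕ → Prop) (p : ℕ → ℝ) : Prop where
  symm : ∀ i j, A i j → A j i
  degree : ∀ i < k, (nb k A i).card ≤ Δ + 1
  nonneg : ∀ v, 0 ≤ p v
  sum : ∑ v ∈ range (b ^ k), p v = 1
  markov : ∀ S : Finset ℕ, ∀ v < b ^ k, ∀ w < b ^ k, (∀ i ∈ S, ∀ j < k, j ∉ S → A i j → dig b v j = dig b w j) →
    p v * p w = p (splice b k S v w) * p (splice b k S w v)
  flexible : ∀ v < b ^ k, p v ≠ 0 → ∀ i < k, ∃ x < b ^ k, ∃ y < b ^ k, Off b (nb k A i) x v ∧ Off b {i} y x ∧
    dig b y i ≠ dig b x i ∧ η * mass b k p (nb k A i) v ≤ p x ∧ η * mass b k p (nb k A i) v ≤ p y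

open Classical in
/-- The uniform distribution on the finite set `S`. -/
noncomputable def uniform (S : Finset ℕ) (v : ℕ) : ℝ := if v ∈ S then 1 / (S.card : ℝ) else 0

/-- The families of distributions of a random integer `v < b ^ k` which are considered here (`𝓕 k p` means that the
distribution `p` belongs to the family).
* `walks`: the uniform distribution on the integers whose `k` digits are the labels of a walk from `x₀` to some vertex `y`,
  where the number of the closed walks of length `2n` at `x₀` is at most `ρ ^ (2n)` for all `n`, and the number of the walks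
  of length `k` from `x₀` to `y` is at least `ρ ^ k / k ^ D` (all vertices `y` with this property are allowed);
* `words`: the uniform distribution on the integers whose `k` digits form a correctly nested word;
* `fields`: the digits form a Markov random field with flexible digits, on any graph of positions with degrees at most `Δ`. -/
inductive Law (b : ℕ) : (ℕ → (ℕ → ℝ) → Prop) → Prop
  | walks {X : Type} (δ : X → ℕ → Option X) (x₀ : X) (ρ : ℝ) (D : ℕ) : Graph b δ → 0 < ρ →
      (∀ n : ℕ, ((walks b δ (2 * n) x₀ x₀).card : ℝ) ≤ ρ ^ (2 * n)) →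
      Law b fun k p => ∃ y : X, ρ ^ k ≤ (k : ℝ) ^ D * (walks b δ k x₀ y).card ∧ p = uniform (walks b δ k x₀ y)
  | words (P : Finset (ℕ × ℕ)) (E : Finset ℕ) : Alphabet b P E →
      Law b fun k p => (brackets b P E k).Nonempty ∧ p = uniform (brackets b P E k)
  | fields (Δ : ℕ) (η : ℝ) : 2 ≤ b → 0 < η → Law b fun k p => ∃ A : ℕ → ℕ → Prop, Field b k Δ η A p

lemma bal_iff (P : Finset (ℕ × ℕ)) (E : Finset ℕ) (w : List ℕ) : Balanced P E w ↔ Pool.Agent.N625.DY.Balanced P E w := by
  constructor
  · intro h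
    induction h with
    | nil => exact .nil
    | neutral a w h1 _ ih => exact .neutral a w h1 ih
    | pair o c u w h1 _ _ ih1 ih2 => exact .pair o c u w h1 ih1 ih2
  · intro h
    induction h with
    | nil => exact .nil
    | neutral a w h1 _ ih => exact .neutral a w h1 ih
    | pair o c u w h1 _ _ ih1 ih2 => exact .pair o c u w h1 ih1 ih2

lemma brackets_eq (b : ℕ) (P : Finset (ℕ × ℕ)) (E : Finset ℕ) (k : ℕ) :
    brackets b P E k = Pool.Agent.N625.DY.brackets b P E k := by
  classical
  unfold brackets Pool.Agent.N625.DY.brackets Pool.Agent.N625.DY.word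
  ext v
  rw [mem_filter, mem_filter, bal_iff]

lemma field_conv {b k Δ : ℕ} {η : ℝ} {A : ℕ → ℕ → Prop} {p : ℕ → ℝ} (h : Field b k Δ η A p) :
    Pool.Agent.N213.GF.Field b k Δ η A p :=
  ⟨h.symm, h.degree, h.nonneg, h.sum, h.markov, h.flexible⟩

theorem good_of {b : ℕ} {𝓕 : ℕ → (ℕ → ℝ) → Prop} (h : Law b 𝓕) : ∃ M, Pool.Agent.Run7.h927.CG.Good b M 𝓕 := by
  rcases h with ⟨δ, x₀, ρ, D, hG, hρ, hR⟩ | ⟨P, E, hA⟩ | ⟨Δ, η, hb, hη⟩
  · refine ⟨_, (Pool.Agent.Run7.h927.CG.w_good (δ := δ) ⟨hG.symm, hG.two⟩ x₀ ρ hρ hR D).mono ?_⟩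
    rintro k p ⟨y, h1, rfl⟩
    exact ⟨y, h1, rfl⟩
  · have hA' : Pool.Agent.N625.DY.Alphabet b P E := ⟨hA.lt, hA.ne, hA.neutral, hA.nonempty⟩
    refine ⟨_, (Pool.Agent.Run7.h927.CG.br_good hA').mono ?_⟩
    rintro k p ⟨h1, rfl⟩
    rw [brackets_eq] at h1 ⊢
    refine ⟨?_, rfl⟩
    by_contra h2
    rw [Pool.Agent.N625.DY.br_empty k h2] at h1
    exact Finset.not_nonempty_empty h1
  · refine ⟨_, (Pool.Agent.Run7.h927.CG.gf_good b Δ η hb hη).mono ?_⟩
    rintro k p ⟨A, hF⟩
    exact ⟨A, field_conv hF⟩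

theorem tcls_of {b : ℕ} {𝓕 : ℕ → (ℕ → ℝ) → Prop} (h : Law b 𝓕) (κ : ℤ) (hκ : κ ≠ 0) : Pool.Agent.N625.PT.TCls b κ 𝓕 := by
  obtain ⟨M, hM⟩ := good_of h
  exact Pool.Agent.Run7.h927.CG.tcls hM κ hκ

end laws

open Finset Polynomial Pool.Agent.H373R2.T7 Pool.Agent.H373R2.T7.TB Pool.Agent.H373R2.T7.PB

/-- the pair `(m, n)` is admissible -/
def Admissible (m n : ℕ) : Prop :=
  2 * m + 1 < n ∧ ((m = 1 ∧ Even n) ∨ (m = 3 ∧ ¬ n ≡ 1 [MOD 6]) ∨ m = 2 ∨ 4 ≤ m)

/-- there is a prime `p < n` such that `q = ⌊(n - p) / m⌋` is prime, `q ^ 2 - 2` has no prime factor `ℓ` with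
`ℓ ^ K ≤ n`, and `q ^ 2 - 2` has fewer than `2 K` prime factors, counted with multiplicity -/
def Rep (K m n : ℕ) : Prop :=
  ∃ p q : ℕ, p.Prime ∧ p < n ∧ q = (n - p) / m ∧ q.Prime ∧
    (∀ ℓ : ℕ, ℓ.Prime → ℓ ∣ q ^ 2 - 2 → n < ℓ ^ K) ∧ (q ^ 2 - 2).primeFactorsList.length < 2 * K

lemma cop (N m k c : ℕ) (h : N + c = m * k ∨ N = m * k + c) (hc : Nat.Coprime c m) : Nat.Coprime N m := by
  by_contra hne
  obtain ⟨p, hp, hpN, hpm⟩ := Nat.Prime.not_coprime_iff_dvd.1 hne
  have h1 : p ∣ m * k := Dvd.dvd.mul_right hpm k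
  have h2 : p ∣ c := by
    rcases h with h | h
    · rw [← h] at h1
      exact (Nat.dvd_add_right hpN).1 h1
    · rw [h] at hpN
      exact (Nat.dvd_add_right h1).1 hpN
  exact (Nat.Prime.not_coprime_iff_dvd.2 ⟨p, hp, h2, hpm⟩) hc

lemma loc (m n : ℕ) (hm : 1 ≤ m) (h : Admissible m n) : ∃ r, r < m ∧ (n - r).Coprime m ∧ Odd (n - r + m) := by
  obtain ⟨hn, hcase⟩ := h
  have hdm := Nat.div_add_mod (n - 1) m
  have hlt := Nat.mod_lt (n - 1) (show 0 < m by omega)
  generalize hk : (n - 1) / m = k at *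
  generalize ha : (n - 1) % m = a at *
  rcases Nat.even_or_odd m with hme | hmo
  · refine ⟨a, hlt, ?_, ?_⟩
    · exact cop (n - a) m k 1 (Or.inr (by omega)) (Nat.coprime_one_left m)
    · have h1 : n - a = m * k + 1 := by omega
      rw [h1]
      have h2 : Even (m * k) := hme.mul_right k
      obtain ⟨t, ht⟩ := h2
      obtain ⟨s, hs⟩ := hme
      exact ⟨t + s, by omega⟩
  · have h2m : Nat.Coprime 2 m := Nat.coprime_two_left.2 hmo
    obtain ⟨s, hs⟩ := hmo
    rcases Nat.eq_zero_or_pos a with ha0 | ha0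
    · rcases Nat.even_or_odd n with hne | hno
      · obtain ⟨t, ht⟩ := hne
        refine ⟨0, by omega, ?_, ⟨t + s, by omega⟩⟩
        rw [Nat.sub_zero]
        exact cop n m k 1 (Or.inr (by omega)) (Nat.coprime_one_left m)
      · obtain ⟨t, ht⟩ := hno
        have hm5 : 5 ≤ m := by
          rcases hcase with ⟨_, ⟨u, hu⟩⟩ | ⟨h3, h6⟩ | h2 | h4
          · omega
          · exfalso
            apply h6
            unfold Nat.ModEq
            subst h3
            omega
          · omega
          · omega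
        refine ⟨3, by omega, ?_, ⟨t + s - 1, by omega⟩⟩
        exact cop (n - 3) m k 2 (Or.inl (by omega)) h2m
    · rcases Nat.even_or_odd (n - a) with hne | hno
      · obtain ⟨t, ht⟩ := hne
        refine ⟨a, hlt, ?_, ⟨t + s, by omega⟩⟩
        exact cop (n - a) m k 1 (Or.inr (by omega)) (Nat.coprime_one_left m)
      · obtain ⟨t, ht⟩ := hno
        refine ⟨a - 1, by omega, ?_, ⟨t + s + 1, by omega⟩⟩
        exact cop (n - (a - 1)) m k 2 (Or.inr (by omega)) h2m

/-- the polynomial `X ^ 2 - 2` -/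
noncomputable def FF : Fin 1 → ℤ[X] := fun _ => X ^ 2 - C 2

lemma FF_deg (i : Fin 1) : (FF i).natDegree = 2 := by
  unfold FF
  exact natDegree_X_pow_sub_C

lemma FF_lc (i : Fin 1) : 0 < (FF i).leadingCoeff := by
  unfold FF
  rw [leadingCoeff_X_pow_sub_C (by norm_num)]
  norm_num

lemma FF_eval (i : Fin 1) (n : ℤ) : (FF i).eval n = n ^ 2 - 2 := by
  unfold FF
  simp

lemma GG_eval (m : ℕ) (n : ℤ) : (C (m : ℤ) * X : ℤ[X]).eval n = m * n := by simp

lemma prod_eF (n : ℤ) : (∏ i, (PArg.eF FF i).eval n) = n * (n ^ 2 - 2) := by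
  rw [Fin.prod_univ_succ, Fin.prod_univ_one]
  have h1 : (PArg.eF FF 0) = X := by unfold PArg.eF; simp
  have h2 : (PArg.eF FF (Fin.succ 0)) = FF 0 := by unfold PArg.eF; simp
  rw [h1, h2, FF_eval, eval_X]

lemma noFixed (m N : ℕ) (hcop : N.Coprime m) (hodd : Odd (N + m)) : NoFixed (PArg.eF FF) (C (m : ℤ) * X) N := by
  intro p hp
  have hpp : Prime (p : ℤ) := Nat.prime_iff_prime_int.1 hp
  have hp1 : ¬ (p : ℤ) ∣ 1 := fun h => hpp.not_isUnit (isUnit_of_dvd_one h)
  simp only [prod_eF, GG_eval]
  by_cases h1 : (p : ℤ) ∣ (N : ℤ) - m * 1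
  · refine ⟨-1, ?_⟩
    have e : (-1 : ℤ) * ((-1) ^ 2 - 2) * ((N : ℤ) - m * (-1)) = N + m := by ring
    rw [e]
    intro h2
    have h3 : (p : ℤ) ∣ 2 * N := by
      have := dvd_add h1 h2
      have e2 : (N : ℤ) - m * 1 + (N + m) = 2 * N := by ring
      rwa [e2] at this
    have h4 : (p : ℤ) ∣ 2 * m := by
      have := dvd_sub h2 h1
      have e2 : (N : ℤ) + m - (N - m * 1) = 2 * m := by ring
      rwa [e2] at this
    by_cases hp2 : p = 2
    · subst hp2
      have h5 : (2 : ℕ) ∣ N + m := by exact_mod_cast h2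
      obtain ⟨t, ht⟩ := hodd
      omega
    · have h6 : ¬ (p : ℤ) ∣ 2 := by
        intro h7
        have h8 : p ∣ 2 := by exact_mod_cast h7
        exact hp2 ((Nat.prime_dvd_prime_iff_eq hp Nat.prime_two).1 h8)
      have h7 : p ∣ N := by exact_mod_cast (hpp.dvd_or_dvd h3).resolve_left h6
      have h8 : p ∣ m := by exact_mod_cast (hpp.dvd_or_dvd h4).resolve_left h6
      exact (Nat.Prime.not_coprime_iff_dvd.2 ⟨p, hp, h7, h8⟩) hcop
  · refine ⟨1, ?_⟩
    have e : (1 : ℤ) * (1 ^ 2 - 2) * ((N : ℤ) - m * 1) = -((N : ℤ) - m * 1) := by ring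
    rw [e, dvd_neg]
    exact h1

lemma len_bound (K n : ℕ) : ∀ l : List ℕ, (∀ a ∈ l, n < a ^ K) → (n + 1) ^ l.length ≤ l.prod ^ K := by
  intro l
  induction l with
  | nil => intro _; simp
  | cons a l ih =>
    intro h
    rw [List.length_cons, List.prod_cons, pow_succ, mul_comm, mul_pow]
    apply Nat.mul_le_mul
    · exact h a (by simp)
    · exact ih fun b hb => h b (by simp [hb])

open Classical in
/-- from a positive weighted sum to a representation -/
lemma rep_of_pos (K m n r y x : ℕ) (hK : 1 ≤ K) (hm : 1 ≤ m) (hr : r < m) (hn : r < n) (hy : ∀ ℓ : ℕ, ℓ ^ K ≤ n → ℓ ≤ y)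
    (h : 0 < WP FF (C (m : ℤ) * X) (n - r) y x) : Rep K m n := by
  unfold WP at h
  obtain ⟨q, hq⟩ : ∃ q, q ∈ (Icc 1 x).filter (fun p : ℕ => p.Prime ∧ (((n - r : ℕ) : ℤ) - (C (m : ℤ) * X : ℤ[X]).eval (p : ℤ)).toNat.Prime ∧ Rough FF y p) := by
    by_contra hne
    push Not at hne
    rw [eq_empty_of_forall_notMem hne, sum_empty] at h
    exact lt_irrefl _ h
  rw [mem_filter] at hq
  obtain ⟨_, hqp, hpp, hR⟩ := hq
  rw [GG_eval] at hpp
  obtain ⟨p, hp⟩ : ∃ p, p = (((n - r : ℕ) : ℤ) - m * q).toNat := ⟨_, rfl⟩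
  rw [← hp] at hpp
  have hp2 := hpp.two_le
  have hpz : (p : ℤ) = ((n - r : ℕ) : ℤ) - m * q := by
    rw [hp]
    apply Int.toNat_of_nonneg
    omega
  have hpn : p + m * q = n - r := by
    have : (p : ℤ) + m * q = ((n - r : ℕ) : ℤ) := by linarith
    exact_mod_cast this
  have hq2 := hqp.two_le
  have hmq : q ≤ m * q := Nat.le_mul_of_pos_left _ (by omega)
  have hnp : n - p = r + m * q := by omega
  have hqe : q = (n - p) / m := by
    rw [hnp, Nat.add_mul_div_left _ _ (by omega), Nat.div_eq_of_lt hr, zero_add]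
  have hqn : q < n := by omega
  have h4 : 2 ≤ q ^ 2 := by nlinarith
  have hrough : ∀ ℓ : ℕ, ℓ.Prime → ℓ ∣ q ^ 2 - 2 → n < ℓ ^ K := by
    intro ℓ hℓ hd
    by_contra hle
    push Not at hle
    apply hR ℓ hℓ (hy ℓ hle) 0
    rw [FF_eval]
    have h5 : ((ℓ : ℕ) : ℤ) ∣ ((q ^ 2 - 2 : ℕ) : ℤ) := by exact_mod_cast hd
    push_cast [Nat.cast_sub h4] at h5
    exact h5
  refine ⟨p, q, hpp, by omega, hqe, hqp, hrough, ?_⟩
  by_contra hlen
  push Not at hlen
  have h5 := len_bound K n (q ^ 2 - 2).primeFactorsList (fun a ha => hrough a (Nat.prime_of_mem_primeFactorsList ha) (Nat.dvd_of_mem_primeFactorsList ha))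
  have h6 : q ^ 2 - 2 ≠ 0 := by
    have : 4 ≤ q ^ 2 := by nlinarith
    omega
  rw [Nat.prod_primeFactorsList h6] at h5
  have h7 : (n + 1) ^ (2 * K) ≤ (q ^ 2 - 2) ^ K := le_trans (Nat.pow_le_pow_right (by omega) hlen) h5
  have h8 : (q ^ 2 - 2) ^ K < ((n + 1) ^ 2) ^ K := by
    apply Nat.pow_lt_pow_left _ (by omega)
    have : q ^ 2 < (n + 1) ^ 2 := Nat.pow_lt_pow_left (by omega) (by norm_num)
    omega
  rw [← pow_mul] at h8
  omega

/-- the property of `N = n - r` -/
def PN (T : ℕ) (a : ℕ × ℕ) (N : ℕ) : Prop :=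
  N.Coprime a.1 → Odd (N + a.1) → N ≤ a.2 ^ T ∧ 0 < WP FF (C (a.1 : ℤ) * X) N a.2 N

lemma det_N : ∃ K : ℕ, 1 ≤ K ∧ ∀ J T : ℕ, Pool.Agent.N625.PT.Det (Pool.Agent.N625.PT.AdP J K T) (PN T) := by
  obtain ⟨K, hK, hmain⟩ := Pool.Agent.N625.PT.det_P 3 (1 / 2) (by norm_num)
  refine ⟨K, hK, fun J T => ?_⟩
  refine hmain 1 FF (fun i => by rw [FF_deg]; norm_num) FF_lc (by rw [Fin.sum_univ_one, FF_deg]) J T (PN T) ?_
  obtain ⟨n1, h1⟩ := ev_log' (J + 1) 2
  obtain ⟨n2, h2⟩ := ev_L' 1
  refine ⟨n1 + n2 + 4, fun N hN m z y hm hmJ hz hzy hyK hNT hasy hcop hodd => ⟨hNT, ?_⟩⟩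
  simp only at hcop hodd ⊢
  have a1 := h1 N (by omega)
  have a2 := h2 N (by omega)
  have hNF := noFixed m N hcop hodd
  have h3 := hasy hNF
  have hN0 : (0 : ℝ) < N := by exact_mod_cast (by omega : 0 < N)
  have hmN : 2 * m ≤ N := by
    have h4 : 2 * (m : ℝ) ≤ √(N : ℝ) := by linarith
    have h5 : √(N : ℝ) ≤ N := by
      rw [Real.sqrt_le_left hN0.le]
      have : (1 : ℝ) ≤ N := by exact_mod_cast (by omega : 1 ≤ N)
      nlinarith
    have h6 : ((2 * m : ℕ) : ℝ) ≤ N := by push_cast; linarith
    exact_mod_cast h6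
  have hX : 0 < SHN.XCount (C (m : ℤ) * X) N N := by
    rw [Pool.Agent.N625.PT.XCount_mul m N hm (by omega)]
    apply Nat.div_pos (by omega) (by omega)
  have h6 := TP_pos FF (C (m : ℤ) * X) N z y N hzy hNF hX
  have h7 := (abs_le.1 h3).1
  linarith

open Classical in
/-- There is an absolute constant `K` with the following property. Let `𝓕` be one of the families of distributions in `Law b`
(digits which label walks in a graph; correctly nested words; Markov random fields), let `κ ≠ 0`, `B`, `J`, `W`, `U` be fixed,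
let `k` be large, let `v < b ^ k` be a random integer whose distribution `p` belongs to the family, and let `c` be an
arbitrary integer with `|c| ≤ B b ^ k`. With a probability of at least `1 - 1 / k ^ U` the following holds for ALL the
integers `n` with `|n - h q| ≤ k ^ W` for some `q` with `|q - (c + κ v)| ≤ k ^ W` and some `1 ≤ h ≤ k ^ J`, and for ALL
`1 ≤ m ≤ k ^ J`: if the pair `(m, n)` is admissible, there is a prime `p < n` such that `q = ⌊(n - p) / m⌋` is prime,
`q ^ 2 - 2` has no prime factor `ℓ` with `ℓ ^ K ≤ n`, and `q ^ 2 - 2` has fewer than `2 K` prime factors. -/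
theorem result : ∃ K : ℕ, 1 ≤ K ∧ ∀ (b : ℕ) (𝓕 : ℕ → (ℕ → ℝ) → Prop), Law b 𝓕 → ∀ κ : ℤ, κ ≠ 0 →
    ∀ B J W U : ℕ, ∃ k₀ : ℕ, ∀ k : ℕ, k₀ ≤ k → ∀ p : ℕ → ℝ, 𝓕 k p → ∀ c : ℤ, |c| ≤ B * (b : ℤ) ^ k →
      ∑ v ∈ range (b ^ k), (if ∀ q : ℤ, |q - (c + κ * v)| ≤ (k : ℤ) ^ W → ∀ h : ℕ, 1 ≤ h → h ≤ k ^ J →
        ∀ n : ℕ, |(n : ℤ) - h * q| ≤ (k : ℤ) ^ W → ∀ m : ℕ, 1 ≤ m → m ≤ k ^ J → Admissible m n → Rep K m n
          then 0 else p v) ≤ 1 / (k : ℝ) ^ U := by
  obtain ⟨K, hK, hdet⟩ := det_N
  refine ⟨8 * K + 1, by omega, fun b 𝓕 hF κ hκ B J W U => ?_⟩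
  have hC := tcls_of hF κ hκ
  have hb := hC.two
  obtain ⟨k₀, hmain⟩ := Pool.Agent.N625.PT.t_gen hC B J (W + J + 1) (U + J + 0 + 1) _ _ (hdet (J + 1) (8 * K))
  obtain ⟨z0, hz0⟩ : ∃ z0 : ℕ, z0 = 2 ^ (J + 1) := ⟨_, rfl⟩
  refine ⟨k₀ + z0 + 2 * K + 4, fun k hk p hp c hc => ?_⟩
  have hk2 : 2 ^ (J + 1) ≤ k := by rw [← hz0]; omega
  have hk4 : 4 ≤ k := by omega
  obtain ⟨y, hy⟩ : ∃ y, y = b ^ (k / (2 * K)) := ⟨_, rfl⟩
  have hkK : 1 ≤ k / (2 * K) := Nat.div_pos (by omega) (by omega)
  have hy2 : 2 ≤ y := by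
    rw [hy]
    calc 2 ≤ b := hb
      _ = b ^ 1 := (pow_one b).symm
      _ ≤ b ^ (k / (2 * K)) := Nat.pow_le_pow_right (by omega) hkK
  have hflex := hp
  refine Pool.Agent.N625.PT.union J 0 U k (by omega) (b ^ k) p (hC.nonneg k p hp)
    (fun m _ v => ¬ ∀ q : ℤ, |q - (c + κ * v)| ≤ (k : ℤ) ^ W → ∀ h : ℕ, 1 ≤ h → h ≤ k ^ J →
        ∀ n : ℕ, |(n : ℤ) - h * q| ≤ (k : ℤ) ^ W → Admissible m n → Rep (8 * K + 1) m n) _ ?_ ?_
  · intro v hv
    push Not at hv
    obtain ⟨q, hq, h, hh1, hh2, n, hn, m, hm1, hm2, hadm, hrep⟩ := hv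
    refine ⟨m, hm1, hm2, 0, by simp, ?_⟩
    push Not
    exact ⟨q, hq, h, hh1, hh2, n, hn, hadm, hrep⟩
  · intro m hm1 hm2 _ _
    have hAd : ∀ K' : ℕ, k ≤ K' → K' ≤ 2 * k → Pool.Agent.N625.PT.AdP (J + 1) K (8 * K) (b ^ K') (m, y) := by
      intro K' hK1 hK2
      refine ⟨hm1, ?_, ?_, ?_⟩
      · simp only
        have hbr : (2 : ℝ) ≤ b := by exact_mod_cast hb
        have hl : (k : ℝ) / 2 ≤ Real.log ((b ^ K' : ℕ) : ℝ) := by
          push_cast
          rw [Real.log_pow]
          have g1 : (1 : ℝ) / 2 ≤ Real.log b := by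
            have := Real.log_two_gt_d9
            have := Real.log_le_log (by norm_num) hbr
            linarith
          have g2 : (k : ℝ) ≤ K' := by exact_mod_cast hK1
          have g3 : (0 : ℝ) ≤ k := Nat.cast_nonneg _
          nlinarith
        have hk0 : (0 : ℝ) < k := by exact_mod_cast (by omega : 0 < k)
        calc (m : ℝ) ≤ (k : ℝ) ^ J := by exact_mod_cast hm2
          _ ≤ ((k : ℝ) / 2) ^ (J + 1) := by
              rw [div_pow, le_div_iff₀ (by positivity), pow_succ (k : ℝ)]
              apply mul_le_mul_of_nonneg_left _ (by positivity)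
              exact_mod_cast hk2
          _ ≤ Real.log ((b ^ K' : ℕ) : ℝ) ^ (J + 1) := pow_le_pow_left₀ (by positivity) hl _
      · simp only
        rw [hy, ← pow_mul]
        apply Nat.pow_le_pow_right (by omega)
        exact (Nat.div_mul_le_self k (2 * K)).trans hK1
      · simp only
        rw [hy, ← pow_mul]
        apply Nat.pow_le_pow_right (by omega)
        have h5 := Nat.lt_div_mul_add (a := k) (b := 2 * K) (by omega)
        have h6 : k / (2 * K) * (2 * K) + 2 * K ≤ 2 * (k / (2 * K) * (2 * K)) := by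
          have : 2 * K ≤ k / (2 * K) * (2 * K) := Nat.le_mul_of_pos_left _ hkK
          omega
        calc K' ≤ 2 * k := hK2
          _ ≤ 2 * (2 * (k / (2 * K) * (2 * K))) := by omega
          _ = k / (2 * K) * (8 * K) := by ring
    refine le_trans (le_of_eq ?_) (hmain k (by omega) p hflex c hc (m, y) hAd
      (fun v => ∀ q : ℤ, |q - (c + κ * v)| ≤ (k : ℤ) ^ W → ∀ h : ℕ, 1 ≤ h → h ≤ k ^ J →
        ∀ n : ℕ, |(n : ℤ) - h * q| ≤ (k : ℤ) ^ W → Admissible m n → Rep (8 * K + 1) m n) ?_)
    · apply sum_congr rfl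
      intro v _
      by_cases hv : ∀ q : ℤ, |q - (c + κ * v)| ≤ (k : ℤ) ^ W → ∀ h : ℕ, 1 ≤ h → h ≤ k ^ J →
        ∀ n : ℕ, |(n : ℤ) - h * q| ≤ (k : ℤ) ^ W → Admissible m n → Rep (8 * K + 1) m n
      · rw [if_neg (not_not.2 hv), if_pos hv]
      · rw [if_pos hv, if_neg hv]
    · intro v hv
      push Not at hv
      obtain ⟨q, hq, h, hh1, hh2, n, hn, hadm, hrep⟩ := hv
      obtain ⟨r, hr, hcop, hodd⟩ := loc m n hm1 hadm
      have hn2 := hadm.1
      have hkz : (1 : ℤ) ≤ (k : ℤ) := by exact_mod_cast (by omega : 1 ≤ k)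
      have hkW : (k : ℤ) ^ W ≤ (k : ℤ) ^ (W + J + 1) := pow_le_pow_right₀ hkz (by omega)
      refine ⟨h, hh1, hh2, q - (c + κ * v), hq.trans hkW, (n : ℤ) - r - h * q, ?_, ?_, ?_⟩
      · have e1 : (n : ℤ) - r - h * q = ((n : ℤ) - h * q) - r := by ring
        have e2 : |((n : ℤ) - h * q) - r| ≤ |(n : ℤ) - h * q| + r := by
          refine (abs_sub _ _).trans (le_of_eq ?_)
          rw [Nat.abs_cast]
        have e3 : (r : ℤ) ≤ (k : ℤ) ^ J := by
          have : r ≤ k ^ J := by omega
          exact_mod_cast this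
        rw [e1]
        refine e2.trans ?_
        have e4 : (k : ℤ) ^ W ≤ (k : ℤ) ^ (W + J) := pow_le_pow_right₀ hkz (by omega)
        have e5 : (k : ℤ) ^ J ≤ (k : ℤ) ^ (W + J) := pow_le_pow_right₀ hkz (by omega)
        have e6 : (4 : ℤ) ≤ k := by exact_mod_cast hk4
        have e7 : 0 < (k : ℤ) ^ (W + J) := by positivity
        rw [pow_succ]
        nlinarith
      · have e1 : (h : ℤ) * (c + (q - (c + κ * v)) + κ * v) + ((n : ℤ) - r - h * q) = n - r := by ring
        rw [e1]
        have : (r : ℤ) < n := by exact_mod_cast (by omega : r < n)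
        linarith
      · have e1 : (h : ℤ) * (c + (q - (c + κ * v)) + κ * v) + ((n : ℤ) - r - h * q) = ((n - r : ℕ) : ℤ) := by
          rw [Nat.cast_sub (by omega)]
          ring
        rw [e1, Int.toNat_natCast]
        intro hP
        apply hrep
        obtain ⟨hle, hpos⟩ := hP hcop hodd
        simp only at hle hpos
        refine rep_of_pos (8 * K + 1) m n r y (n - r) (by omega) hm1 hr (by omega) ?_ hpos
        intro ℓ hℓ
        have h6 : n ≤ 2 * (n - r) := by omega
        have h7 : ℓ ^ (8 * K + 1) ≤ y ^ (8 * K + 1) := by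
          calc ℓ ^ (8 * K + 1) ≤ n := hℓ
            _ ≤ 2 * (n - r) := h6
            _ ≤ y * y ^ (8 * K) := Nat.mul_le_mul hy2 hle
            _ = y ^ (8 * K + 1) := by rw [pow_succ]; ring
        exact (Nat.pow_le_pow_iff_left (by omega)).1 h7

end Pool.Agent.Results.MP_4011c3_nt.DigitLawsAllSlopes
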