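import Pool.Agent.Run7.h582.FM.Rcx
import Pool.Agent.Run7.h582.FM.App1
import Pool.Agent.N625.PT.S

/-!
# Primes `p < n` with `q = ⌊(n - p) / m⌋` prime and `q ^ 2 - 2` almost prime, for ALL the integers `n` near all the multiples of all
# the integers near `lam i * x + d i`, for almost every `x` with respect to every measure with polynomial Fourier decay

Here `x` is random with respect to an ARBITRARY finite Borel measure `μ` with bounded support whose Fourier transform is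
`O (|ξ| ^ (-δ))` for some `δ > 0`: such measures can be singular and live on sets of an arbitrarily small positive Hausdorff
dimension (for example Salem sets, images of Brownian motion, the well approximable numbers). All the admissible pairs `(m, n)`
with `m ≤ log ^ J (N i)` and `n` within `log ^ W (N i)` of a multiple `h q` of an integer `q` within `log ^ W (N i)` of
`lam i * x + d i`, `h ≤ log ^ J (N i)`, are considered at once, and there are no exceptional `i`, except finitely many. The set of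
the `x` for which the statement fails has Fourier dimension zero.

The starting results treat almost all `n` (`AlmostAllAlmostPrime`), smooth numbers, and integers with random digits
(`ExchangeableDigitsAllSlopes`; there a probability of `1 - 1 / k ^ U` at each length `k`).

Method: the measure is replaced by finite families of real numbers with the same exponential sums (`Pool.Agent.Run7.h582.FM`); the
large spectrum of all the multiples of the members of such families is thin (with helper844's files, `Pool.Agent.Run7.h844.RP`);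
the passage from the spectrum to the pairs `p`, `q` is from the starting files (`Pool.Agent.N625.PT.t_gen`,
`Pool.Agent.N625.PT.det_P`, and the starting result `MP_4011c3_nt.ExchangeableDigitsAllSlopes`, whose definitions, lemmas on
admissible pairs and main argument (`core`, for all classes of distributions all the multiples of which have a thin spectrum)
are copied here).
-/

set_option autoImplicit false
set_option maxHeartbeats 4000000

namespace Pool.Agent.Results.MP_4011c3_nt.FourierDecayAllSlopes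

section measures
open MeasureTheory Filter

/-- `μ` is a finite Borel measure with bounded support and its Fourier transform `ξ ↦ ∫ exp (i ξ t) dμ (t)` is
`O (|ξ| ^ (-δ))` for some `δ > 0`. -/
def FourierDecay (μ : Measure ℝ) : Prop :=
  IsFiniteMeasure μ ∧ (∃ R : ℝ, μ (Set.Icc (-R) R)ᶜ = 0) ∧ ∃ C δ : ℝ, 0 < δ ∧ ∀ ξ : ℝ, ξ ≠ 0 →
    ‖∫ t : ℝ, Complex.exp (((ξ * t : ℝ) : ℂ) * Complex.I) ∂μ‖ ≤ C * |ξ| ^ (-δ)

/-- `N i ≥ exp (i ^ η)`, `|d i| ≤ B N i` and `N i / log ^ T (N i) ≤ lam i ≤ B N i` for large `i`. -/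
def Scales (η : ℝ) (B T : ℕ) (N : ℕ → ℕ) (lam d : ℕ → ℝ) : Prop :=
  ∀ᶠ i : ℕ in atTop, Real.exp ((i : ℝ) ^ η) ≤ N i ∧ |d i| ≤ B * N i ∧ lam i ≤ B * N i ∧
    (N i : ℝ) ≤ lam i * Real.log (N i) ^ T

end measures

open Finset Polynomial Pool.Agent.H373R2.T7 Pool.Agent.H373R2.T7.TB Pool.Agent.H373R2.T7.PB

/-- the pair `(m, n)` is admissible -/
def Admissible (m n : ℕ) : Prop :=
  2 * m + 1 < n ∧ ((m = 1 ∧ Even n) ∨ (m = 3 ∧ ¬ n ≡ 1 [MOD 6]) ∨ m = 2 ∨ 4 ≤ m)

/-- there is a prime `p < n` such that `q = ⌊(n - p) / m⌋` is prime, `q ^ 2 - 2` has no prime factor `ℓ` with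
`ℓ ^ K ≤ n`, and `q ^ 2 - 2` has fewer than `2 K` prime factors, counted with multiplicity -/
def Rep (K m n : ℕ) : Prop :=
  ∃ p q : ℕ, p.Prime ∧ p < n ∧ q = (n - p) / m ∧ q.Prime ∧
    (∀ ℓ : ℕ, ℓ.Prime → ℓ ∣ q ^ 2 - 2 → n < ℓ ^ K) ∧ (q ^ 2 - 2).primeFactorsList.length < 2 * K

lemma cop (N m k c : ℕ) (h : N + c = m * k ∨ N = m * k + c) (hc : Nat.Coprime c m) : Nat.Coprime N m := by
  by_contra hne
  obtain ⟨p, hp, hpN, hpm⟩ := Nat.Prime.not_coprime_iff_dvd.1 hne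
  have h1 : p ∣ m * k := Dvd.dvd.mul_right hpm k
  have h2 : p ∣ c := by
    rcases h with h | h
    · rw [← h] at h1
      exact (Nat.dvd_add_right hpN).1 h1
    · rw [h] at hpN
      exact (Nat.dvd_add_right h1).1 hpN
  exact (Nat.Prime.not_coprime_iff_dvd.2 ⟨p, hp, h2, hpm⟩) hc

lemma loc (m n : ℕ) (hm : 1 ≤ m) (h : Admissible m n) : ∃ r, r < m ∧ (n - r).Coprime m ∧ Odd (n - r + m) := by
  obtain ⟨hn, hcase⟩ := h
  have hdm := Nat.div_add_mod (n - 1) m
  have hlt := Nat.mod_lt (n - 1) (show 0 < m by omega)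
  generalize hk : (n - 1) / m = k at *
  generalize ha : (n - 1) % m = a at *
  rcases Nat.even_or_odd m with hme | hmo
  · refine ⟨a, hlt, ?_, ?_⟩
    · exact cop (n - a) m k 1 (Or.inr (by omega)) (Nat.coprime_one_left m)
    · have h1 : n - a = m * k + 1 := by omega
      rw [h1]
      have h2 : Even (m * k) := hme.mul_right k
      obtain ⟨t, ht⟩ := h2
      obtain ⟨s, hs⟩ := hme
      exact ⟨t + s, by omega⟩
  · have h2m : Nat.Coprime 2 m := Nat.coprime_two_left.2 hmo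
    obtain ⟨s, hs⟩ := hmo
    rcases Nat.eq_zero_or_pos a with ha0 | ha0
    · rcases Nat.even_or_odd n with hne | hno
      · obtain ⟨t, ht⟩ := hne
        refine ⟨0, by omega, ?_, ⟨t + s, by omega⟩⟩
        rw [Nat.sub_zero]
        exact cop n m k 1 (Or.inr (by omega)) (Nat.coprime_one_left m)
      · obtain ⟨t, ht⟩ := hno
        have hm5 : 5 ≤ m := by
          rcases hcase with ⟨_, ⟨u, hu⟩⟩ | ⟨h3, h6⟩ | h2 | h4
          · omega
          · exfalso
            apply h6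
            unfold Nat.ModEq
            subst h3
            omega
          · omega
          · omega
        refine ⟨3, by omega, ?_, ⟨t + s - 1, by omega⟩⟩
        exact cop (n - 3) m k 2 (Or.inl (by omega)) h2m
    · rcases Nat.even_or_odd (n - a) with hne | hno
      · obtain ⟨t, ht⟩ := hne
        refine ⟨a, hlt, ?_, ⟨t + s, by omega⟩⟩
        exact cop (n - a) m k 1 (Or.inr (by omega)) (Nat.coprime_one_left m)
      · obtain ⟨t, ht⟩ := hno
        refine ⟨a - 1, by omega, ?_, ⟨t + s + 1, by omega⟩⟩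
        exact cop (n - (a - 1)) m k 2 (Or.inr (by omega)) h2m

/-- the polynomial `X ^ 2 - 2` -/
noncomputable def FF : Fin 1 → ℤ[X] := fun _ => X ^ 2 - C 2

lemma FF_deg (i : Fin 1) : (FF i).natDegree = 2 := by
  unfold FF
  exact natDegree_X_pow_sub_C

lemma FF_lc (i : Fin 1) : 0 < (FF i).leadingCoeff := by
  unfold FF
  rw [leadingCoeff_X_pow_sub_C (by norm_num)]
  norm_num

lemma FF_eval (i : Fin 1) (n : ℤ) : (FF i).eval n = n ^ 2 - 2 := by
  unfold FF
  simp

lemma GG_eval (m : ℕ) (n : ℤ) : (C (m : ℤ) * X : ℤ[X]).eval n = m * n := by simp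

lemma prod_eF (n : ℤ) : (∏ i, (PArg.eF FF i).eval n) = n * (n ^ 2 - 2) := by
  rw [Fin.prod_univ_succ, Fin.prod_univ_one]
  have h1 : (PArg.eF FF 0) = X := by unfold PArg.eF; simp
  have h2 : (PArg.eF FF (Fin.succ 0)) = FF 0 := by unfold PArg.eF; simp
  rw [h1, h2, FF_eval, eval_X]

lemma noFixed (m N : ℕ) (hcop : N.Coprime m) (hodd : Odd (N + m)) : NoFixed (PArg.eF FF) (C (m : ℤ) * X) N := by
  intro p hp
  have hpp : Prime (p : ℤ) := Nat.prime_iff_prime_int.1 hp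
  have hp1 : ¬ (p : ℤ) ∣ 1 := fun h => hpp.not_isUnit (isUnit_of_dvd_one h)
  simp only [prod_eF, GG_eval]
  by_cases h1 : (p : ℤ) ∣ (N : ℤ) - m * 1
  · refine ⟨-1, ?_⟩
    have e : (-1 : ℤ) * ((-1) ^ 2 - 2) * ((N : ℤ) - m * (-1)) = N + m := by ring
    rw [e]
    intro h2
    have h3 : (p : ℤ) ∣ 2 * N := by
      have := dvd_add h1 h2
      have e2 : (N : ℤ) - m * 1 + (N + m) = 2 * N := by ring
      rwa [e2] at this
    have h4 : (p : ℤ) ∣ 2 * m := by
      have := dvd_sub h2 h1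
      have e2 : (N : ℤ) + m - (N - m * 1) = 2 * m := by ring
      rwa [e2] at this
    by_cases hp2 : p = 2
    · subst hp2
      have h5 : (2 : ℕ) ∣ N + m := by exact_mod_cast h2
      obtain ⟨t, ht⟩ := hodd
      omega
    · have h6 : ¬ (p : ℤ) ∣ 2 := by
        intro h7
        have h8 : p ∣ 2 := by exact_mod_cast h7
        exact hp2 ((Nat.prime_dvd_prime_iff_eq hp Nat.prime_two).1 h8)
      have h7 : p ∣ N := by exact_mod_cast (hpp.dvd_or_dvd h3).resolve_left h6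
      have h8 : p ∣ m := by exact_mod_cast (hpp.dvd_or_dvd h4).resolve_left h6
      exact (Nat.Prime.not_coprime_iff_dvd.2 ⟨p, hp, h7, h8⟩) hcop
  · refine ⟨1, ?_⟩
    have e : (1 : ℤ) * (1 ^ 2 - 2) * ((N : ℤ) - m * 1) = -((N : ℤ) - m * 1) := by ring
    rw [e, dvd_neg]
    exact h1

lemma len_bound (K n : ℕ) : ∀ l : List ℕ, (∀ a ∈ l, n < a ^ K) → (n + 1) ^ l.length ≤ l.prod ^ K := by
  intro l
  induction l with
  | nil => intro _; simp
  | cons a l ih =>
    intro h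
    rw [List.length_cons, List.prod_cons, pow_succ, mul_comm, mul_pow]
    apply Nat.mul_le_mul
    · exact h a (by simp)
    · exact ih fun b hb => h b (by simp [hb])

open Classical in
/-- from a positive weighted sum to a representation -/
lemma rep_of_pos (K m n r y x : ℕ) (hK : 1 ≤ K) (hm : 1 ≤ m) (hr : r < m) (hn : r < n) (hy : ∀ ℓ : ℕ, ℓ ^ K ≤ n → ℓ ≤ y)
    (h : 0 < WP FF (C (m : ℤ) * X) (n - r) y x) : Rep K m n := by
  unfold WP at h
  obtain ⟨q, hq⟩ : ∃ q, q ∈ (Icc 1 x).filter (fun p : ℕ => p.Prime ∧ (((n - r : ℕ) : ℤ) - (C (m : ℤ) * X : ℤ[X]).eval (p : ℤ)).toNat.Prime ∧ Rough FF y p) := by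
    by_contra hne
    push Not at hne
    rw [eq_empty_of_forall_notMem hne, sum_empty] at h
    exact lt_irrefl _ h
  rw [mem_filter] at hq
  obtain ⟨_, hqp, hpp, hR⟩ := hq
  rw [GG_eval] at hpp
  obtain ⟨p, hp⟩ : ∃ p, p = (((n - r : ℕ) : ℤ) - m * q).toNat := ⟨_, rfl⟩
  rw [← hp] at hpp
  have hp2 := hpp.two_le
  have hpz : (p : ℤ) = ((n - r : ℕ) : ℤ) - m * q := by
    rw [hp]
    apply Int.toNat_of_nonneg
    omega
  have hpn : p + m * q = n - r := by
    have : (p : ℤ) + m * q = ((n - r : ℕ) : ℤ) := by linarith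
    exact_mod_cast this
  have hq2 := hqp.two_le
  have hmq : q ≤ m * q := Nat.le_mul_of_pos_left _ (by omega)
  have hnp : n - p = r + m * q := by omega
  have hqe : q = (n - p) / m := by
    rw [hnp, Nat.add_mul_div_left _ _ (by omega), Nat.div_eq_of_lt hr, zero_add]
  have hqn : q < n := by omega
  have h4 : 2 ≤ q ^ 2 := by nlinarith
  have hrough : ∀ ℓ : ℕ, ℓ.Prime → ℓ ∣ q ^ 2 - 2 → n < ℓ ^ K := by
    intro ℓ hℓ hd
    by_contra hle
    push Not at hle
    apply hR ℓ hℓ (hy ℓ hle) 0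
    rw [FF_eval]
    have h5 : ((ℓ : ℕ) : ℤ) ∣ ((q ^ 2 - 2 : ℕ) : ℤ) := by exact_mod_cast hd
    push_cast [Nat.cast_sub h4] at h5
    exact h5
  refine ⟨p, q, hpp, by omega, hqe, hqp, hrough, ?_⟩
  by_contra hlen
  push Not at hlen
  have h5 := len_bound K n (q ^ 2 - 2).primeFactorsList (fun a ha => hrough a (Nat.prime_of_mem_primeFactorsList ha) (Nat.dvd_of_mem_primeFactorsList ha))
  have h6 : q ^ 2 - 2 ≠ 0 := by
    have : 4 ≤ q ^ 2 := by nlinarith
    omega
  rw [Nat.prod_primeFactorsList h6] at h5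
  have h7 : (n + 1) ^ (2 * K) ≤ (q ^ 2 - 2) ^ K := le_trans (Nat.pow_le_pow_right (by omega) hlen) h5
  have h8 : (q ^ 2 - 2) ^ K < ((n + 1) ^ 2) ^ K := by
    apply Nat.pow_lt_pow_left _ (by omega)
    have : q ^ 2 < (n + 1) ^ 2 := Nat.pow_lt_pow_left (by omega) (by norm_num)
    omega
  rw [← pow_mul] at h8
  omega

/-- the property of `N = n - r` -/
def PN (T : ℕ) (a : ℕ × ℕ) (N : ℕ) : Prop :=
  N.Coprime a.1 → Odd (N + a.1) → N ≤ a.2 ^ T ∧ 0 < WP FF (C (a.1 : ℤ) * X) N a.2 N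

lemma det_N : ∃ K : ℕ, 1 ≤ K ∧ ∀ J T : ℕ, Pool.Agent.N625.PT.Det (Pool.Agent.N625.PT.AdP J K T) (PN T) := by
  obtain ⟨K, hK, hmain⟩ := Pool.Agent.N625.PT.det_P 3 (1 / 2) (by norm_num)
  refine ⟨K, hK, fun J T => ?_⟩
  refine hmain 1 FF (fun i => by rw [FF_deg]; norm_num) FF_lc (by rw [Fin.sum_univ_one, FF_deg]) J T (PN T) ?_
  obtain ⟨n1, h1⟩ := ev_log' (J + 1) 2
  obtain ⟨n2, h2⟩ := ev_L' 1
  refine ⟨n1 + n2 + 4, fun N hN m z y hm hmJ hz hzy hyK hNT hasy hcop hodd => ⟨hNT, ?_⟩⟩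
  simp only at hcop hodd ⊢
  have a1 := h1 N (by omega)
  have a2 := h2 N (by omega)
  have hNF := noFixed m N hcop hodd
  have h3 := hasy hNF
  have hN0 : (0 : ℝ) < N := by exact_mod_cast (by omega : 0 < N)
  have hmN : 2 * m ≤ N := by
    have h4 : 2 * (m : ℝ) ≤ √(N : ℝ) := by linarith
    have h5 : √(N : ℝ) ≤ N := by
      rw [Real.sqrt_le_left hN0.le]
      have : (1 : ℝ) ≤ N := by exact_mod_cast (by omega : 1 ≤ N)
      nlinarith
    have h6 : ((2 * m : ℕ) : ℝ) ≤ N := by push_cast; linarith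
    exact_mod_cast h6
  have hX : 0 < SHN.XCount (C (m : ℤ) * X) N N := by
    rw [Pool.Agent.N625.PT.XCount_mul m N hm (by omega)]
    apply Nat.div_pos (by omega) (by omega)
  have h6 := TP_pos FF (C (m : ℤ) * X) N z y N hzy hNF hX
  have h7 := (abs_le.1 h3).1
  linarith

open Classical in
/-- the argument of `ExchangeableDigitsAllSlopes` for all classes of distributions all the multiples of which have a thin spectrum -/
theorem core : ∃ K : ℕ, 1 ≤ K ∧ ∀ (b : ℕ) (κ : ℤ) (𝓕 : ℕ → (ℕ → ℝ) → Prop), Pool.Agent.N625.PT.TCls b κ 𝓕 →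
    ∀ B J W U : ℕ, ∃ k₀ : ℕ, ∀ k : ℕ, k₀ ≤ k → ∀ p : ℕ → ℝ, 𝓕 k p → ∀ c : ℤ, |c| ≤ B * (b : ℤ) ^ k →
      ∑ v ∈ range (b ^ k), (if ∀ q : ℤ, |q - (c + κ * v)| ≤ (k : ℤ) ^ W → ∀ h : ℕ, 1 ≤ h → h ≤ k ^ J →
        ∀ n : ℕ, |(n : ℤ) - h * q| ≤ (k : ℤ) ^ W → ∀ m : ℕ, 1 ≤ m → m ≤ k ^ J → Admissible m n → Rep K m n
          then 0 else p v) ≤ 1 / (k : ℝ) ^ U := by
  obtain ⟨K, hK, hdet⟩ := det_N
  refine ⟨8 * K + 1, by omega, fun b κ 𝓕 hC B J W U => ?_⟩
  have hb := hC.two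
  obtain ⟨k₀, hmain⟩ := Pool.Agent.N625.PT.t_gen hC B J (W + J + 1) (U + J + 0 + 1) _ _ (hdet (J + 1) (8 * K))
  obtain ⟨z0, hz0⟩ : ∃ z0 : ℕ, z0 = 2 ^ (J + 1) := ⟨_, rfl⟩
  refine ⟨k₀ + z0 + 2 * K + 4, fun k hk p hp c hc => ?_⟩
  have hk2 : 2 ^ (J + 1) ≤ k := by rw [← hz0]; omega
  have hk4 : 4 ≤ k := by omega
  obtain ⟨y, hy⟩ : ∃ y, y = b ^ (k / (2 * K)) := ⟨_, rfl⟩
  have hkK : 1 ≤ k / (2 * K) := Nat.div_pos (by omega) (by omega)
  have hy2 : 2 ≤ y := by
    rw [hy]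
    calc 2 ≤ b := hb
      _ = b ^ 1 := (pow_one b).symm
      _ ≤ b ^ (k / (2 * K)) := Nat.pow_le_pow_right (by omega) hkK
  have hflex := hp
  refine Pool.Agent.N625.PT.union J 0 U k (by omega) (b ^ k) p (hC.nonneg k p hp)
    (fun m _ v => ¬ ∀ q : ℤ, |q - (c + κ * v)| ≤ (k : ℤ) ^ W → ∀ h : ℕ, 1 ≤ h → h ≤ k ^ J →
        ∀ n : ℕ, |(n : ℤ) - h * q| ≤ (k : ℤ) ^ W → Admissible m n → Rep (8 * K + 1) m n) _ ?_ ?_
  · intro v hv
    push Not at hv
    obtain ⟨q, hq, h, hh1, hh2, n, hn, m, hm1, hm2, hadm, hrep⟩ := hv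
    refine ⟨m, hm1, hm2, 0, by simp, ?_⟩
    push Not
    exact ⟨q, hq, h, hh1, hh2, n, hn, hadm, hrep⟩
  · intro m hm1 hm2 _ _
    have hAd : ∀ K' : ℕ, k ≤ K' → K' ≤ 2 * k → Pool.Agent.N625.PT.AdP (J + 1) K (8 * K) (b ^ K') (m, y) := by
      intro K' hK1 hK2
      refine ⟨hm1, ?_, ?_, ?_⟩
      · simp only
        have hbr : (2 : ℝ) ≤ b := by exact_mod_cast hb
        have hl : (k : ℝ) / 2 ≤ Real.log ((b ^ K' : ℕ) : ℝ) := by
          push_cast
          rw [Real.log_pow]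
          have g1 : (1 : ℝ) / 2 ≤ Real.log b := by
            have := Real.log_two_gt_d9
            have := Real.log_le_log (by norm_num) hbr
            linarith
          have g2 : (k : ℝ) ≤ K' := by exact_mod_cast hK1
          have g3 : (0 : ℝ) ≤ k := Nat.cast_nonneg _
          nlinarith
        have hk0 : (0 : ℝ) < k := by exact_mod_cast (by omega : 0 < k)
        calc (m : ℝ) ≤ (k : ℝ) ^ J := by exact_mod_cast hm2
          _ ≤ ((k : ℝ) / 2) ^ (J + 1) := by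
              rw [div_pow, le_div_iff₀ (by positivity), pow_succ (k : ℝ)]
              apply mul_le_mul_of_nonneg_left _ (by positivity)
              exact_mod_cast hk2
          _ ≤ Real.log ((b ^ K' : ℕ) : ℝ) ^ (J + 1) := pow_le_pow_left₀ (by positivity) hl _
      · simp only
        rw [hy, ← pow_mul]
        apply Nat.pow_le_pow_right (by omega)
        exact (Nat.div_mul_le_self k (2 * K)).trans hK1
      · simp only
        rw [hy, ← pow_mul]
        apply Nat.pow_le_pow_right (by omega)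
        have h5 := Nat.lt_div_mul_add (a := k) (b := 2 * K) (by omega)
        have h6 : k / (2 * K) * (2 * K) + 2 * K ≤ 2 * (k / (2 * K) * (2 * K)) := by
          have : 2 * K ≤ k / (2 * K) * (2 * K) := Nat.le_mul_of_pos_left _ hkK
          omega
        calc K' ≤ 2 * k := hK2
          _ ≤ 2 * (2 * (k / (2 * K) * (2 * K))) := by omega
          _ = k / (2 * K) * (8 * K) := by ring
    refine le_trans (le_of_eq ?_) (hmain k (by omega) p hflex c hc (m, y) hAd
      (fun v => ∀ q : ℤ, |q - (c + κ * v)| ≤ (k : ℤ) ^ W → ∀ h : ℕ, 1 ≤ h → h ≤ k ^ J →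
        ∀ n : ℕ, |(n : ℤ) - h * q| ≤ (k : ℤ) ^ W → Admissible m n → Rep (8 * K + 1) m n) ?_)
    · apply sum_congr rfl
      intro v _
      by_cases hv : ∀ q : ℤ, |q - (c + κ * v)| ≤ (k : ℤ) ^ W → ∀ h : ℕ, 1 ≤ h → h ≤ k ^ J →
        ∀ n : ℕ, |(n : ℤ) - h * q| ≤ (k : ℤ) ^ W → Admissible m n → Rep (8 * K + 1) m n
      · rw [if_neg (not_not.2 hv), if_pos hv]
      · rw [if_pos hv, if_neg hv]
    · intro v hv
      push Not at hv
      obtain ⟨q, hq, h, hh1, hh2, n, hn, hadm, hrep⟩ := hv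
      obtain ⟨r, hr, hcop, hodd⟩ := loc m n hm1 hadm
      have hn2 := hadm.1
      have hkz : (1 : ℤ) ≤ (k : ℤ) := by exact_mod_cast (by omega : 1 ≤ k)
      have hkW : (k : ℤ) ^ W ≤ (k : ℤ) ^ (W + J + 1) := pow_le_pow_right₀ hkz (by omega)
      refine ⟨h, hh1, hh2, q - (c + κ * v), hq.trans hkW, (n : ℤ) - r - h * q, ?_, ?_, ?_⟩
      · have e1 : (n : ℤ) - r - h * q = ((n : ℤ) - h * q) - r := by ring
        have e2 : |((n : ℤ) - h * q) - r| ≤ |(n : ℤ) - h * q| + r := by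
          refine (abs_sub _ _).trans (le_of_eq ?_)
          rw [Nat.abs_cast]
        have e3 : (r : ℤ) ≤ (k : ℤ) ^ J := by
          have : r ≤ k ^ J := by omega
          exact_mod_cast this
        rw [e1]
        refine e2.trans ?_
        have e4 : (k : ℤ) ^ W ≤ (k : ℤ) ^ (W + J) := pow_le_pow_right₀ hkz (by omega)
        have e5 : (k : ℤ) ^ J ≤ (k : ℤ) ^ (W + J) := pow_le_pow_right₀ hkz (by omega)
        have e6 : (4 : ℤ) ≤ k := by exact_mod_cast hk4
        have e7 : 0 < (k : ℤ) ^ (W + J) := by positivity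
        rw [pow_succ]
        nlinarith
      · have e1 : (h : ℤ) * (c + (q - (c + κ * v)) + κ * v) + ((n : ℤ) - r - h * q) = n - r := by ring
        rw [e1]
        have : (r : ℤ) < n := by exact_mod_cast (by omega : r < n)
        linarith
      · have e1 : (h : ℤ) * (c + (q - (c + κ * v)) + κ * v) + ((n : ℤ) - r - h * q) = ((n - r : ℕ) : ℤ) := by
          rw [Nat.cast_sub (by omega)]
          ring
        rw [e1, Int.toNat_natCast]
        intro hP
        apply hrep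
        obtain ⟨hle, hpos⟩ := hP hcop hodd
        simp only at hle hpos
        refine rep_of_pos (8 * K + 1) m n r y (n - r) (by omega) hm1 hr (by omega) ?_ hpos
        intro ℓ hℓ
        have h6 : n ≤ 2 * (n - r) := by omega
        have h7 : ℓ ^ (8 * K + 1) ≤ y ^ (8 * K + 1) := by
          calc ℓ ^ (8 * K + 1) ≤ n := hℓ
            _ ≤ 2 * (n - r) := h6
            _ ≤ y * y ^ (8 * K) := Nat.mul_le_mul hy2 hle
            _ = y ^ (8 * K + 1) := by rw [pow_succ]; ring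
        exact (Nat.pow_le_pow_iff_left (by omega)).1 h7

open MeasureTheory Filter in
/-- There is an absolute constant `K` with the following property. Let `μ` be a measure with `FourierDecay`, and let
`Scales η B T N lam d` for some `η > 0`. For `μ`-almost every `x`, for all `J` and `W` and all large `i`, for ALL the integers `n`
with `|n - h q| ≤ log ^ W (N i)` for some integer `q` with `|q - (lam i x + d i)| ≤ log ^ W (N i)` and some
`1 ≤ h ≤ log ^ J (N i)`, and for ALL `1 ≤ m ≤ log ^ J (N i)`: if the pair `(m, n)` is admissible, there is a prime `p < n` such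
that `q' = ⌊(n - p) / m⌋` is prime, `q' ^ 2 - 2` has no prime factor `ℓ` with `ℓ ^ K ≤ n`, and `q' ^ 2 - 2` has fewer than `2 K`
prime factors. -/
theorem result : ∃ K : ℕ, 1 ≤ K ∧ ∀ μ : Measure ℝ, FourierDecay μ → ∀ η : ℝ, 0 < η → ∀ (B T : ℕ) (N : ℕ → ℕ)
    (lam d : ℕ → ℝ), Scales η B T N lam d → ∀ᵐ x ∂μ, ∀ J W : ℕ, ∀ᶠ i : ℕ in atTop,
      ∀ q : ℤ, |(q : ℝ) - (lam i * x + d i)| ≤ Real.log (N i) ^ W → ∀ h : ℕ, 1 ≤ h → (h : ℝ) ≤ Real.log (N i) ^ J →
        ∀ n : ℕ, |(n : ℝ) - h * q| ≤ Real.log (N i) ^ W → ∀ m : ℕ, 1 ≤ m → (m : ℝ) ≤ Real.log (N i) ^ J →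
          Admissible m n → Rep K m n := by
  classical
  obtain ⟨K, hK, hcore⟩ := core
  refine ⟨K, hK, fun μ hμ η hη B T N lam d hS => ?_⟩
  have key : ∀ J W : ℕ, ∀ᵐ x ∂μ, ∀ᶠ i : ℕ in atTop, ∀ q : ℤ, |(q : ℝ) - (lam i * x + d i)| ≤ Real.log (N i) ^ W →
      ∀ h : ℕ, 1 ≤ h → (h : ℝ) ≤ Real.log (N i) ^ J → ∀ n : ℕ, |(n : ℝ) - h * q| ≤ Real.log (N i) ^ W →
        ∀ m : ℕ, 1 ≤ m → (m : ℝ) ≤ Real.log (N i) ^ J → Admissible m n → Rep K m n := by
    intro J W
    refine Pool.Agent.Run7.h582.FM.ae_rcx (Θ := Unit) (fun _ _ => True)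
      (fun k _ q => ∀ h : ℕ, 1 ≤ h → h ≤ k ^ J → ∀ n : ℕ, |(n : ℤ) - h * q| ≤ (k : ℤ) ^ W → ∀ m : ℕ, 1 ≤ m → m ≤ k ^ J →
        Admissible m n → Rep K m n)
      (Pool.Agent.Run7.h582.FM.rcx_of_tcls _ _ ?_)
      (fun i q => ∀ h : ℕ, 1 ≤ h → (h : ℝ) ≤ Real.log (N i) ^ J → ∀ n : ℕ, |(n : ℝ) - h * q| ≤ Real.log (N i) ^ W →
        ∀ m : ℕ, 1 ≤ m → (m : ℝ) ≤ Real.log (N i) ^ J → Admissible m n → Rep K m n) (fun _ => ()) μ hμ η hη B T N lam d hS ?_ W
    · intro 𝓕 hF U' W'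
      obtain ⟨k₀, h2⟩ := hcore 2 1 𝓕 hF 1 J (W' + W) U'
      refine ⟨k₀ + 1, fun k hk _ _ p hp c₀ hc₀ => ?_⟩
      refine le_trans (sum_le_sum fun v _ => ?_) (h2 k (by omega) p hp c₀ (by simpa using hc₀))
      have hp0 := hF.nonneg k p hp v
      have hkz : (1 : ℤ) ≤ (k : ℤ) := by exact_mod_cast (by omega : 1 ≤ k)
      by_cases hv : ∀ q : ℤ, |q - (c₀ + 1 * (v : ℕ))| ≤ (k : ℤ) ^ (W' + W) → ∀ h : ℕ, 1 ≤ h → h ≤ k ^ J →
          ∀ n : ℕ, |(n : ℤ) - h * q| ≤ (k : ℤ) ^ (W' + W) → ∀ m : ℕ, 1 ≤ m → m ≤ k ^ J → Admissible m n → Rep K m n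
      · rw [if_pos hv, if_pos]
        intro q hq h hh1 hh2 n hn m hm1 hm2 hadm
        exact hv q (by rw [one_mul]; exact hq.trans (pow_le_pow_right₀ hkz (by omega))) h hh1 hh2 n
          (hn.trans (pow_le_pow_right₀ hkz (by omega))) m hm1 hm2 hadm
      · rw [if_neg hv]
        split_ifs
        · exact hp0
        · exact le_rfl
    · filter_upwards [(Pool.Agent.Run7.h582.FM.Sc.log hη hS).eventually_ge_atTop 1] with j hj k k1 k2 k3 k4
      have hL0 : 0 < Real.log (N j) := by linarith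
      refine ⟨trivial, fun q hq h hh1 hh2 n hn m hm1 hm2 hadm => hq h hh1 ?_ n ?_ m hm1 ?_ hadm⟩
      · have : (h : ℝ) ≤ (k : ℝ) ^ J := hh2.trans (pow_le_pow_left₀ hL0.le k1 J)
        exact_mod_cast this
      · have : |(n : ℝ) - h * q| ≤ (k : ℝ) ^ W := hn.trans (pow_le_pow_left₀ hL0.le k1 W)
        have e : ((|(n : ℤ) - h * q| : ℤ) : ℝ) = |(n : ℝ) - h * q| := by push_cast; rfl
        rw [← e] at this
        exact_mod_cast this
      · have : (m : ℝ) ≤ (k : ℝ) ^ J := hm2.trans (pow_le_pow_left₀ hL0.le k1 J)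
        exact_mod_cast this
  simp only [← ae_all_iff] at key
  filter_upwards [key] with x hx J W
  exact hx J W

end Pool.Agent.Results.MP_4011c3_nt.FourierDecayAllSlopes
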